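import Pool.Agent.Q275.GQ.Stm2

/-! Job ARITH of project GQ. -/

set_option autoImplicit false

namespace Pool.Agent.Q178.GQ

open Pool.Agent.Q275.GQ

/-- the integral numerators -/
def sg (P : Par) : ℕ → ℤ
  | 0 => 1
  | 1 => -P.a1
  | k + 2 => -P.a1 * sg P (k + 1) - P.a0 * P.a2 * sg P k

theorem us_succ' (P : Par) (k : ℕ) : us P (k + 1) = TQ P (us P k) := by
  unfold us
  rw [Function.iterate_succ_apply']

theorem us_one (P : Par) : us P 1 = (-(P.a2 / P.a0 : ℚ), -(P.a1 / P.a0 : ℚ)) := by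
  rw [us_succ']
  refine Prod.ext ?_ ?_ <;> simp [us, TQ]

theorem us_sg (P : Par) (k : ℕ) : (us P (k + 1)).2 * (P.a0 : ℚ) ^ (k + 1) = sg P (k + 1) ∧
    (us P (k + 1)).1 * (P.a0 : ℚ) ^ (k + 1) = -P.a2 * sg P k := by
  have h0 : (P.a0 : ℚ) ≠ 0 := by exact_mod_cast P.a0_pos.ne'
  induction k with
  | zero =>
    rw [us_one]
    simp only [sg]
    constructor
    · push_cast; field_simp
    · push_cast; field_simp
  | succ k ih =>
    obtain ⟨h1, h2⟩ := ih
    rw [us_succ']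
    simp only [TQ]
    constructor
    · have e : ((us P (k + 1)).1 - P.a1 * (us P (k + 1)).2 / P.a0) * (P.a0 : ℚ) ^ (k + 1 + 1) =
          P.a0 * ((us P (k + 1)).1 * (P.a0 : ℚ) ^ (k + 1)) -
            P.a1 * ((us P (k + 1)).2 * (P.a0 : ℚ) ^ (k + 1)) := by
        rw [pow_succ _ (k + 1)]
        field_simp
      rw [e, h1, h2]
      simp only [sg]
      push_cast
      ring
    · have e : -(P.a2 * (us P (k + 1)).2 / P.a0) * (P.a0 : ℚ) ^ (k + 1 + 1) =
          -P.a2 * ((us P (k + 1)).2 * (P.a0 : ℚ) ^ (k + 1)) := by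
        rw [pow_succ _ (k + 1)]
        field_simp
      rw [e, h1]

theorem quad (P : Par) (k : ℕ) : P.a2 * (us P k).2 ^ 2 - P.a1 * (us P k).1 * (us P k).2 +
    P.a0 * (us P k).1 ^ 2 = P.a2 * ((P.a2 : ℚ) / P.a0) ^ k := by
  have h0 : (P.a0 : ℚ) ≠ 0 := by exact_mod_cast P.a0_pos.ne'
  induction k with
  | zero => simp [us]
  | succ k ih =>
    rw [us_succ', pow_succ ((P.a2 : ℚ) / P.a0) k, ← mul_assoc, ← ih]
    simp only [TQ]
    field_simp
    ring

theorem sg_mod (P : Par) {p : ℕ} (hpa : (p : ℤ) ∣ P.a0) (k : ℕ) :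
    (p : ℤ) ∣ sg P k - (-P.a1) ^ k := by
  induction k using Nat.strong_induction_on with
  | _ k ih =>
    match k with
    | 0 => simp [sg]
    | 1 => simp [sg]
    | k + 2 =>
      have h1 := ih (k + 1) (by omega)
      have e : sg P (k + 2) - (-P.a1) ^ (k + 2) =
          -P.a1 * (sg P (k + 1) - (-P.a1) ^ (k + 1)) - P.a0 * (P.a2 * sg P k) := by
        simp only [sg]
        ring
      rw [e]
      exact (h1.mul_left _).sub (hpa.mul_right _)

theorem arith : S_ARITH := by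
  intro P p hp hpa k hk y hy j hj0 hj
  have : Fact p.Prime := ⟨hp⟩
  have hpZ : Prime (p : ℤ) := Nat.prime_iff_prime_int.1 hp
  have h0 : (P.a0 : ℚ) ≠ 0 := by exact_mod_cast P.a0_pos.ne'
  have h2' : (P.a2 : ℚ) ≠ 0 := by exact_mod_cast P.h2.ne'
  obtain ⟨k', rfl⟩ : ∃ k', k = k' + 1 := ⟨k - 1, by omega⟩
  obtain ⟨hs, hu⟩ := us_sg P k'
  -- (ii)
  have hcop : IsCoprime y.num P.a0 := by
    rw [Int.isCoprime_iff_gcd_eq_one]
    by_contra hcon
    obtain ⟨q, hq, hqd⟩ := Nat.exists_prime_and_dvd hcon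
    have h3 : (q : ℤ) ∣ y.num := (Int.natCast_dvd_natCast.2 hqd).trans (Int.gcd_dvd_left ..)
    have h4 : (q : ℤ) ∣ P.a0 := (Int.natCast_dvd_natCast.2 hqd).trans (Int.gcd_dvd_right ..)
    exact hy q hq h4 h3
  have hcop2 : IsCoprime y.num (y.den : ℤ) := by
    rw [Int.isCoprime_iff_gcd_eq_one]
    exact y.reduced
  have hyd : (y.den : ℚ) ≠ 0 := by exact_mod_cast y.den_ne_zero
  have e1 : y.num * sg P (k' + 1) = j * y.den * P.a0 ^ (k' + 1) := by
    have e2 : ((y.num * sg P (k' + 1) : ℤ) : ℚ) = ((j * y.den * P.a0 ^ (k' + 1) : ℤ) : ℚ) := by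
      push_cast
      rw [← hs, ← hj, ← Rat.mul_den_eq_num y]
      ring
    exact_mod_cast e2
  have hdvd : y.num ∣ j := by
    have h3 : y.num ∣ j * (y.den * P.a0 ^ (k' + 1)) := ⟨sg P (k' + 1), by rw [e1]; ring⟩
    have h4 : IsCoprime y.num (y.den * P.a0 ^ (k' + 1)) := hcop2.mul_right hcop.pow_right
    exact h4.dvd_of_dvd_mul_right h3
  obtain ⟨r, hr⟩ := hdvd
  have hy0 : y ≠ 0 := by
    rintro rfl
    rw [zero_mul] at hj
    exact hj0 (by exact_mod_cast hj.symm)
  have hnum0 : y.num ≠ 0 := Rat.num_ne_zero.2 hy0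
  have hr0 : r ≠ 0 := by
    rintro rfl
    rw [mul_zero] at hr
    exact hj0 hr
  have hsint : (us P (k' + 1)).2 = ((y.den * r : ℤ) : ℚ) := by
    have h3 : y * (us P (k' + 1)).2 = y * ((y.den * r : ℤ) : ℚ) := by
      rw [hj, hr]
      push_cast
      rw [← Rat.mul_den_eq_num y]
      ring
    exact mul_left_cancel₀ hy0 h3
  have hsg : sg P (k' + 1) = y.den * r * P.a0 ^ (k' + 1) := by
    have e2 : ((sg P (k' + 1) : ℤ) : ℚ) = ((y.den * r * P.a0 ^ (k' + 1) : ℤ) : ℚ) := by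
      rw [← hs, hsint]
      push_cast
      ring
    exact_mod_cast e2
  -- (iii)
  have hpa1 : (p : ℤ) ∣ P.a1 := by
    have h3 := sg_mod P hpa (k' + 1)
    have h4 : (p : ℤ) ∣ sg P (k' + 1) := by
      rw [hsg]
      exact (hpa.trans (dvd_pow_self _ (by omega))).mul_left _
    have h5 : (p : ℤ) ∣ (-P.a1) ^ (k' + 1) := by
      have := h4.sub h3
      rwa [sub_sub_cancel] at this
    exact (dvd_neg.1 (hpZ.dvd_of_dvd_pow h5))
  have hpa2 : ¬ (p : ℤ) ∣ P.a2 := P.cop p hp hpa hpa1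
  -- (iv)
  have hkey : ¬ ((us P (k' + 1)).1 = 0 ∨ 0 ≤ padicValRat p (us P (k' + 1)).1) := by
    intro hcon
    have hq := quad P (k' + 1)
    set u := (us P (k' + 1)).1 with hudef
    have hval : padicValRat p (P.a2 * ((P.a2 : ℚ) / P.a0) ^ (k' + 1)) < 0 := by
      have v2 : padicValRat p (P.a2 : ℚ) = 0 := by
        rw [padicValRat.of_int, padicValInt.eq_zero_of_not_dvd hpa2]
        rfl
      have v0 : 1 ≤ padicValRat p (P.a0 : ℚ) := by
        rw [padicValRat.of_int]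
        have h3 : 1 ≤ padicValInt p P.a0 := by
          have h4 : (p : ℤ) ^ 1 ∣ P.a0 := by simpa using hpa
          have h5 := (padicValInt_dvd_iff 1 P.a0).1 h4
          rcases h5 with h5 | h5
          · exact absurd h5 P.a0_pos.ne'
          · exact h5
        exact_mod_cast h3
      rw [padicValRat.mul h2' (pow_ne_zero _ (div_ne_zero h2' h0)), padicValRat.pow,
        padicValRat.div h2' h0, v2]
      have h4 : (1 : ℤ) ≤ (k' + 1 : ℕ) := by push_cast; omega
      nlinarith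
    -- the left hand side is p-integral
    have hnorm : padicNorm p (P.a2 * (us P (k' + 1)).2 ^ 2 - P.a1 * u * (us P (k' + 1)).2 +
        P.a0 * u ^ 2) ≤ 1 := by
      have nu : padicNorm p u ≤ 1 := by
        rcases hcon with h | h
        · rw [h, padicNorm.zero]; norm_num
        · by_cases hu0 : u = 0
          · rw [hu0, padicNorm.zero]; norm_num
          · rw [padicNorm.eq_zpow_of_nonzero hu0]
            exact zpow_le_one_of_nonpos₀ (by exact_mod_cast hp.one_le) (by omega)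
      have ns : padicNorm p (us P (k' + 1)).2 ≤ 1 := by
        rw [hsint]; exact padicNorm.of_int _
      have n1 : padicNorm p (P.a1 : ℚ) ≤ 1 := padicNorm.of_int _
      have n2 : padicNorm p (P.a2 : ℚ) ≤ 1 := padicNorm.of_int _
      have n0 : padicNorm p (P.a0 : ℚ) ≤ 1 := padicNorm.of_int _
      have hmul : ∀ a b : ℚ, padicNorm p a ≤ 1 → padicNorm p b ≤ 1 → padicNorm p (a * b) ≤ 1 := by
        intro a b ha hb
        rw [padicNorm.mul]
        exact mul_le_one₀ ha (padicNorm.nonneg _) hb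
      refine (padicNorm.nonarchimedean).trans (max_le ?_ ?_)
      · refine (padicNorm.sub).trans (max_le ?_ ?_)
        · rw [pow_two]
          exact hmul _ _ n2 (hmul _ _ ns ns)
        · exact hmul _ _ (hmul _ _ n1 nu) ns
      · rw [pow_two]
        exact hmul _ _ n0 (hmul _ _ nu nu)
    rw [hq] at hnorm
    have hne : (P.a2 : ℚ) * ((P.a2 : ℚ) / P.a0) ^ (k' + 1) ≠ 0 :=
      mul_ne_zero h2' (pow_ne_zero _ (div_ne_zero h2' h0))
    rw [padicNorm.eq_zpow_of_nonzero hne] at hnorm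
    have h5 : (1 : ℚ) < (p : ℚ) ^ (-padicValRat p (P.a2 * ((P.a2 : ℚ) / P.a0) ^ (k' + 1))) :=
      one_lt_zpow₀ (by exact_mod_cast hp.one_lt) (by omega)
    linarith
  push Not at hkey
  refine ⟨?_, hkey.1, hkey.2⟩
  rw [hsint]
  push_cast
  rw [abs_mul, Nat.abs_cast]
  have h6 : (1 : ℚ) ≤ |(r : ℚ)| := by exact_mod_cast Int.one_le_abs hr0
  have h7 : (0 : ℚ) ≤ y.den := Nat.cast_nonneg _
  nlinarith

end Pool.Agent.Q178.GQ
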