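import Pool.Agent.Q275.GQ.Stm2

/-! Job EQ of project GQ. -/

set_option autoImplicit false

namespace Pool.Agent.Q178.GQ

open Finset Filter Topology MeasureTheory Pool.Agent.Q275.GQ
open scoped Classical

/-- the functional `(m c0 + n c1) / Q` as the real part of a multiplication -/
noncomputable def wv (P : Par) (Q : ℕ) (m n : ℤ) : ℂ :=
  ⟨m / (P.a2 * Q), -((n - m * (P.a2 * P.α.re + P.a1) / P.a2) / (P.a2 * P.α.im * Q))⟩

theorem wv_re (P : Par) {Q : ℕ} (hQ : 0 < Q) (m n : ℤ) (z : ℂ) :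
    (wv P Q m n * z).re = m * (c0 P z / Q) + n * (c1 P z / Q) := by
  have h1 : (P.a2 : ℝ) ≠ 0 := P.a2_pos.ne'
  have h2 := P.nr
  have h3 : (Q : ℝ) ≠ 0 := by exact_mod_cast hQ.ne'
  rw [Complex.mul_re]
  simp only [wv, c0, c1]
  field_simp
  ring

theorem wv_ne (P : Par) {Q : ℕ} (hQ : 0 < Q) {m n : ℤ} (h : (m, n) ≠ (0, 0)) : wv P Q m n ≠ 0 := by
  have h1 : (P.a2 : ℝ) ≠ 0 := P.a2_pos.ne'
  have h2 := P.nr
  have h3 : (Q : ℝ) ≠ 0 := by exact_mod_cast hQ.ne'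
  intro h0
  have hre := congrArg Complex.re h0
  have him := congrArg Complex.im h0
  simp only [wv, Complex.zero_re, Complex.zero_im] at hre him
  have hm : (m : ℝ) = 0 := by
    rcases div_eq_zero_iff.1 hre with h4 | h4
    · exact h4
    · exact absurd h4 (mul_ne_zero h1 h3)
  rw [hm, zero_mul, zero_div, sub_zero, neg_eq_zero] at him
  have hn : (n : ℝ) = 0 := by
    rcases div_eq_zero_iff.1 him with h4 | h4
    · exact h4
    · exact absurd h4 (mul_ne_zero (mul_ne_zero h1 h2) h3)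
  apply h
  refine Prod.ext ?_ ?_
  · exact_mod_cast hm
  · exact_mod_cast hn

theorem floor_fract (r : ℝ) {Q : ℕ} (hQ : 0 < Q) : ⌊(Q : ℝ) * Int.fract (r / Q)⌋ = ⌊r⌋ % Q := by
  have h3 : (0 : ℝ) < Q := by exact_mod_cast hQ
  obtain ⟨n, hn⟩ : ∃ n : ℤ, n = ⌊r / Q⌋ := ⟨_, rfl⟩
  have e : (Q : ℝ) * Int.fract (r / Q) = r - ((Q * n : ℤ) : ℝ) := by
    unfold Int.fract
    rw [← hn]
    push_cast
    field_simp
  have h4 : 0 ≤ ⌊(Q : ℝ) * Int.fract (r / Q)⌋ :=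
    Int.floor_nonneg.2 (mul_nonneg h3.le (Int.fract_nonneg _))
  have h5 : ⌊(Q : ℝ) * Int.fract (r / Q)⌋ < Q := by
    rw [Int.floor_lt]
    have := Int.fract_lt_one (r / Q)
    push_cast
    nlinarith
  have h6 : ⌊(Q : ℝ) * Int.fract (r / Q)⌋ = ⌊r⌋ - Q * n := by
    rw [e, Int.floor_sub_intCast]
  have h7 : ⌊r⌋ = ⌊(Q : ℝ) * Int.fract (r / Q)⌋ + Q * n := by rw [h6]; ring
  conv_rhs => rw [h7]
  rw [Int.add_mul_emod_self_left, Int.emod_eq_of_lt h4 h5]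

theorem eqd : S_WEYL → S_BOX → S_EQ := by
  intro hW hB P
  have hae : ∀ᵐ x : ℂ, ∀ (Q : ℕ) (m n : ℤ), 0 < Q → (m, n) ≠ (0, 0) →
      Tendsto (fun N : ℕ => (∑ i ∈ range N, e ((wv P Q m n * P.α ^ i * x).re)) / N) atTop
        (𝓝 0) := by
    rw [ae_all_iff]
    intro Q
    rw [ae_all_iff]
    intro m
    rw [ae_all_iff]
    intro n
    by_cases h : 0 < Q ∧ (m, n) ≠ (0, 0)
    · filter_upwards [hW P.α P.gt (wv P Q m n) (wv_ne P h.1 h.2)] with x hx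
      intro _ _
      exact hx
    · exact Eventually.of_forall fun x h1 h2 => absurd ⟨h1, h2⟩ h
  filter_upwards [hae] with x hx
  intro Q hQ Z hZ
  have hbox := hB (fun i => c0 P (P.α ^ i * x) / Q) (fun i => c1 P (P.α ^ i * x) / Q) (by
    intro m n hmn
    refine (hx Q m n hQ hmn).congr fun N => ?_
    congr 1
    refine Finset.sum_congr rfl fun i _ => ?_
    congr 1
    rw [mul_assoc, wv_re P hQ]) Q hQ
  set t : Finset (ℤ × ℤ) := (Ico (0 : ℤ) Q ×ˢ Ico (0 : ℤ) Q).filter (fun m => m ∈ Z) with ht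
  have hcard : ∀ N : ℕ, (((range N).filter (fun i => M0 P (P.α ^ i * x) ∈ Z)).card : ℝ) =
      ∑ m ∈ t, (((range N).filter (fun i =>
        ⌊(Q : ℝ) * Int.fract (c0 P (P.α ^ i * x) / Q)⌋ = ((m.1.toNat : ℕ) : ℤ) ∧
        ⌊(Q : ℝ) * Int.fract (c1 P (P.α ^ i * x) / Q)⌋ = ((m.2.toNat : ℕ) : ℤ))).card : ℝ) := by
    intro N
    have h1 := Finset.card_eq_sum_card_fiberwise (s := (range N).filter
      (fun i => M0 P (P.α ^ i * x) ∈ Z)) (t := t)
      (f := fun i => ((M0 P (P.α ^ i * x)).1 % (Q : ℤ), (M0 P (P.α ^ i * x)).2 % (Q : ℤ))) (by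
        intro i hi
        have hi' := (Finset.mem_filter.1 (Finset.mem_coe.1 hi)).2
        apply Finset.mem_coe.2
        rw [ht, Finset.mem_filter, Finset.mem_product, Finset.mem_Ico, Finset.mem_Ico]
        have hQ' : (0 : ℤ) < Q := by exact_mod_cast hQ
        exact ⟨⟨⟨Int.emod_nonneg _ hQ'.ne', Int.emod_lt_of_pos _ hQ'⟩,
          ⟨Int.emod_nonneg _ hQ'.ne', Int.emod_lt_of_pos _ hQ'⟩⟩, (hZ _).1 hi'⟩)
    rw [h1]
    push_cast
    refine Finset.sum_congr rfl fun m hm => ?_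
    congr 2
    ext i
    rw [Finset.mem_filter, Finset.mem_filter, Finset.mem_filter, floor_fract _ hQ,
      floor_fract _ hQ]
    rw [ht, Finset.mem_filter, Finset.mem_product, Finset.mem_Ico, Finset.mem_Ico] at hm
    obtain ⟨⟨⟨hm1, -⟩, ⟨hm2, -⟩⟩, hmZ⟩ := hm
    rw [Int.toNat_of_nonneg hm1, Int.toNat_of_nonneg hm2]
    constructor
    · rintro ⟨⟨hi, -⟩, he⟩
      have he1 := congrArg Prod.fst he
      have he2 := congrArg Prod.snd he
      exact ⟨hi, he1, he2⟩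
    · rintro ⟨hi, he1, he2⟩
      have he : ((M0 P (P.α ^ i * x)).1 % (Q : ℤ), (M0 P (P.α ^ i * x)).2 % (Q : ℤ)) = m :=
        Prod.ext he1 he2
      refine ⟨⟨hi, ?_⟩, he⟩
      rw [hZ, he]
      exact hmZ
  have hlim : Tendsto (fun N : ℕ => ∑ m ∈ t, (((range N).filter (fun i =>
        ⌊(Q : ℝ) * Int.fract (c0 P (P.α ^ i * x) / Q)⌋ = ((m.1.toNat : ℕ) : ℤ) ∧
        ⌊(Q : ℝ) * Int.fract (c1 P (P.α ^ i * x) / Q)⌋ = ((m.2.toNat : ℕ) : ℤ))).card : ℝ) / N)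
      atTop (𝓝 (∑ m ∈ t, 1 / (Q : ℝ) ^ 2)) := by
    refine tendsto_finsetSum _ fun m hm => ?_
    rw [ht, Finset.mem_filter, Finset.mem_product, Finset.mem_Ico, Finset.mem_Ico] at hm
    exact hbox m.1.toNat m.2.toNat (by omega) (by omega)
  have e : ∑ m ∈ t, 1 / (Q : ℝ) ^ 2 = (t.card : ℝ) / (Q : ℝ) ^ 2 := by
    rw [Finset.sum_const, nsmul_eq_mul]
    ring
  rw [e] at hlim
  refine hlim.congr fun N => ?_
  rw [hcard, Finset.sum_div]

end Pool.Agent.Q178.GQ
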