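import Pool.Agent.Q275.GQ.Stm2

/-! Job NOMIN of project GQ. -/

set_option autoImplicit false

namespace Pool.Agent.Q178.GQ

open Finset Filter Topology Pool.Agent.Q275.GQ

/-- the second coordinate is an integer not divisible by `a0` -/
def Blk (P : Par) (σ : ℝ × ℝ) : Prop := ∃ j : ℤ, σ.2 = j ∧ ¬ P.a0 ∣ j

theorem us_succ (P : Par) (k : ℕ) : us P (k + 1) = TQ P (us P k) := by
  unfold us
  rw [Function.iterate_succ_apply']

theorem T_iter (P : Par) (y : ℝ) (k : ℕ) :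
    (T P)^[k] (0, y) = (y * ((us P k).1 : ℚ), y * ((us P k).2 : ℚ)) := by
  induction k with
  | zero => simp [us]
  | succ k ih =>
    rw [Function.iterate_succ_apply', ih, us_succ]
    refine Prod.ext ?_ ?_
    · simp only [T, TQ]
      push_cast
      ring
    · simp only [T, TQ]
      push_cast
      ring

theorem exists_blk (h1 : S_CONTR) {P : Par} {E : Set (ℝ × ℝ)} (hE : IsMin P E) {τ : ℝ × ℝ}
    (hτ : τ ∈ E) : ∃ k, (T P)^[k] τ ∈ E ∧ Blk P ((T P)^[k] τ) := by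
  classical
  have key : ∀ k, (∀ i < k, ¬ Blk P ((T P)^[i] τ)) → (T P)^[k] τ ∈ E := by
    intro k
    induction k with
    | zero => intro _; exact hτ
    | succ k ih =>
      intro h
      rw [Function.iterate_succ_apply']
      refine hE.inv _ (ih fun i hi => h i (by omega)) ?_
      intro j hj
      by_contra hcon
      exact h k (by omega) ⟨j, hj, hcon⟩
  have hex : ∃ k, Blk P ((T P)^[k] τ) := by
    by_contra hcon
    push Not at hcon
    have h2 : ∀ k, (T P)^[k] τ ∈ E := fun k => key k fun i _ => hcon i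
    have h3 := hE.closed.mem_of_tendsto (h1 P τ) (Eventually.of_forall h2)
    exact hE.zero h3
  exact ⟨Nat.find hex, key _ fun i hi => Nat.find_min hex hi, Nat.find_spec hex⟩

theorem mem_R {P : Par} {E : Set (ℝ × ℝ)} (hE : IsMin P E) {s t : ℝ} (h : (s, t) ∈ E) {j : ℤ}
    (hj : t = j) : ((0 : ℝ), s) ∈ E := by
  have h2 := hE.per _ h 0 (-j)
  have e : ((s, t).1 + ((0 : ℤ) : ℝ), (s, t).2 + ((-j : ℤ) : ℝ)) = (s, 0) := by
    refine Prod.ext ?_ ?_
    · simp
    · simp [hj]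
  rw [e] at h2
  have h3 := hE.inv _ h2 (by
    intro i hi
    have : i = 0 := by
      have hi' : (0 : ℝ) = i := hi
      exact_mod_cast hi'.symm
    rw [this]
    exact dvd_zero _)
  have e2 : T P (s, 0) = (0, s) := by
    refine Prod.ext ?_ ?_ <;> simp [T]
  rwa [e2] at h3

theorem add_R {P : Par} {E : Set (ℝ × ℝ)} (hE : IsMin P E) {y : ℝ} (h : ((0 : ℝ), y) ∈ E) (n : ℤ) :
    ((0 : ℝ), y + n) ∈ E := by
  have h2 := hE.per _ h 0 n
  simpa using h2

theorem not_int {P : Par} {E : Set (ℝ × ℝ)} (hE : IsMin P E) {y : ℝ} (h : ((0 : ℝ), y) ∈ E) (n : ℤ) :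
    y ≠ n := by
  intro h0
  have h2 := add_R hE h (-n)
  rw [h0] at h2
  apply hE.zero
  simpa using h2

theorem step3 (h1 : S_CONTR) {P : Par} {E : Set (ℝ × ℝ)} (hE : IsMin P E) {y : ℝ}
    (h : ((0 : ℝ), y) ∈ E) : ∃ (k : ℕ) (j : ℤ), 1 ≤ k ∧ j ≠ 0 ∧ y * ((us P k).2 : ℚ) = j ∧
      ((0 : ℝ), y * ((us P k).1 : ℚ)) ∈ E := by
  obtain ⟨k, hk, j, hj, hj'⟩ := exists_blk h1 hE h
  rw [T_iter] at hk hj
  refine ⟨k, j, ?_, ?_, hj, mem_R hE hk hj⟩
  · by_contra hk0
    have hk0 : k = 0 := by omega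
    rw [hk0] at hj
    simp [us] at hj
    exact not_int hE h j hj
  · rintro rfl
    exact hj' (dvd_zero _)

/-- the shift -/
theorem shift_num (a : ℤ) (ha : a ≠ 0) (y : ℚ) : ∃ m : ℤ, (y + m).den = y.den ∧
    ∀ q : ℕ, q.Prime → (q : ℤ) ∣ a → ¬ (q : ℤ) ∣ (y + m).num := by
  classical
  set s : Finset ℕ := a.natAbs.primeFactors.filter (fun q => ¬ (q : ℤ) ∣ y.num) with hs
  set m : ℕ := ∏ q ∈ s, q with hm
  refine ⟨(m : ℤ), ?_, ?_⟩
  · exact Rat.add_intCast_den _ _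
  · intro q hq hqa hcon
    have hnum : (y + ((m : ℤ) : ℚ)).num = y.num + (m : ℤ) * y.den := by
      have e1 := Rat.mul_den_eq_num (y + ((m : ℤ) : ℚ))
      rw [Rat.add_intCast_den] at e1
      have e2 := Rat.mul_den_eq_num y
      have e3 : ((y + ((m : ℤ) : ℚ)).num : ℚ) = ((y.num + (m : ℤ) * y.den : ℤ) : ℚ) := by
        rw [← e1]
        push_cast
        rw [← e2]
        ring
      exact_mod_cast e3
    rw [hnum] at hcon
    have hqp : Prime (q : ℤ) := Nat.prime_iff_prime_int.1 hq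
    by_cases hqn : (q : ℤ) ∣ y.num
    · have h3 : (q : ℤ) ∣ (m : ℤ) * y.den := by
        have := (Int.dvd_add_right hqn).1 hcon
        exact this
      rcases hqp.dvd_or_dvd h3 with h4 | h4
      · have h5 : q ∣ m := by exact_mod_cast h4
        rw [hm] at h5
        obtain ⟨r, hr, hqr⟩ := (Nat.Prime.prime hq).exists_mem_finset_dvd h5
        rw [hs, Finset.mem_filter, Nat.mem_primeFactors] at hr
        have h6 : q = r := (Nat.prime_dvd_prime_iff_eq hq hr.1.1).1 hqr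
        rw [← h6] at hr
        exact hr.2 hqn
      · have h5 : q ∣ y.den := by exact_mod_cast h4
        have h6 : q ∣ y.num.natAbs := Int.natCast_dvd.1 hqn
        have h7 := Nat.dvd_gcd h6 h5
        rw [y.reduced] at h7
        exact hq.one_lt.ne' (Nat.dvd_one.1 h7)
    · have h3 : (q : ℤ) ∣ (m : ℤ) := by
        have : q ∣ m := Finset.dvd_prod_of_mem _ (by
          rw [hs, Finset.mem_filter, Nat.mem_primeFactors]
          exact ⟨⟨hq, Int.natCast_dvd.1 hqa, Int.natAbs_ne_zero.2 ha⟩, hqn⟩)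
        exact_mod_cast this
      apply hqn
      have h4 : (q : ℤ) ∣ (m : ℤ) * y.den := h3.mul_right _
      exact (Int.dvd_add_left h4).1 hcon

theorem nomin : S_CONTR → S_ARITH → S_NOMIN := by
  intro h1 h2 P E hE
  -- the bound
  obtain ⟨S, hS⟩ : ∃ S : ℝ, ∀ k, |((us P k).2 : ℝ)| ≤ S := by
    have h3 := h1 P (0, 1)
    have h4 : Tendsto (fun k => (((us P k).2 : ℚ) : ℝ)) atTop (𝓝 0) := by
      have h5 := (continuous_snd.tendsto ((0 : ℝ), (0 : ℝ))).comp h3
      refine h5.congr fun k => ?_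
      simp only [Function.comp]
      rw [T_iter]
      simp
    obtain ⟨C, hC⟩ := (Metric.isBounded_range_of_tendsto _ h4).exists_norm_le
    exact ⟨C, fun k => hC _ ⟨k, rfl⟩⟩
  have ha0 := P.two_le
  obtain ⟨p, hp, hpa⟩ : ∃ p : ℕ, p.Prime ∧ (p : ℤ) ∣ P.a0 := by
    obtain ⟨p, hp, hpd⟩ := Nat.exists_prime_and_dvd (n := P.a0.natAbs) (by omega)
    exact ⟨p, hp, Int.natCast_dvd.2 hpd⟩
  have : Fact p.Prime := ⟨hp⟩
  -- shifted elements
  have hshift : ∀ y : ℚ, ((0 : ℝ), (y : ℝ)) ∈ E → ∃ y' : ℚ, ((0 : ℝ), (y' : ℝ)) ∈ E ∧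
      y'.den = y.den ∧ ∀ q : ℕ, q.Prime → (q : ℤ) ∣ P.a0 → ¬ (q : ℤ) ∣ y'.num := by
    intro y hy
    obtain ⟨m, hm, hm'⟩ := shift_num P.a0 (by omega) y
    refine ⟨y + m, ?_, hm, hm'⟩
    have := add_R hE hy m
    push_cast
    exact this
  -- a rational element
  have hrat : ∃ y : ℚ, ((0 : ℝ), (y : ℝ)) ∈ E := by
    obtain ⟨τ, hτ⟩ := hE.nonempty
    obtain ⟨k, hk, j, hj, -⟩ := exists_blk h1 hE hτ
    have h3 : ((0 : ℝ), ((T P)^[k] τ).1) ∈ E := mem_R hE (t := ((T P)^[k] τ).2) hk hj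
    obtain ⟨k', j', -, hj0, hj', -⟩ := step3 h1 hE h3
    have hs : (((us P k').2 : ℚ) : ℝ) ≠ 0 := by
      intro h0
      rw [h0, mul_zero] at hj'
      exact hj0 (by exact_mod_cast hj'.symm)
    refine ⟨j' / (us P k').2, ?_⟩
    have e : (((j' : ℚ) / (us P k').2 : ℚ) : ℝ) = ((T P)^[k] τ).1 := by
      push_cast
      rw [← hj']
      field_simp
    rw [e]
    exact h3
  -- the claim
  have claim : ∀ n : ℕ, ∃ y : ℚ, ((0 : ℝ), (y : ℝ)) ∈ E ∧ p ^ n ∣ y.den ∧
      ∀ q : ℕ, q.Prime → (q : ℤ) ∣ P.a0 → ¬ (q : ℤ) ∣ y.num := by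
    intro n
    induction n with
    | zero =>
      obtain ⟨y, hy⟩ := hrat
      obtain ⟨y', hy', -, h3⟩ := hshift y hy
      exact ⟨y', hy', by simp, h3⟩
    | succ n ih =>
      obtain ⟨y, hy, hyd, hyn⟩ := ih
      obtain ⟨k, j, hk, hj0, hj, hyk⟩ := step3 h1 hE hy
      have hjQ : y * (us P k).2 = j := by exact_mod_cast hj
      obtain ⟨h3, h4, h5⟩ := h2 P p hp hpa k hk y hyn j hj0 hjQ
      have hyk' : ((0 : ℝ), ((y * (us P k).1 : ℚ) : ℝ)) ∈ E := by
        push_cast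
        exact hyk
      obtain ⟨y', hy', hd, hn⟩ := hshift _ hyk'
      refine ⟨y', hy', ?_, hn⟩
      rw [hd]
      have hy0 : y ≠ 0 := by
        rintro rfl
        apply not_int hE hy 0
        simp
      have h6 : padicValRat p (y * (us P k).1) = padicValRat p y + padicValRat p (us P k).1 :=
        padicValRat.mul hy0 h4
      have h7 : padicValRat p y ≤ -n := by
        rw [padicValRat_def]
        have h8 : padicValInt p y.num = 0 := padicValInt.eq_zero_of_not_dvd (hyn p hp hpa)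
        have h9 : n ≤ padicValNat p y.den := (padicValNat_dvd_iff_le y.den_ne_zero).1 hyd
        rw [h8]
        omega
      have h8 : padicValRat p (y * (us P k).1) ≤ -(n + 1 : ℕ) := by
        rw [h6]; push_cast; omega
      rw [padicValNat_dvd_iff_le (Rat.den_ne_zero _)]
      rw [padicValRat_def] at h8
      omega
  obtain ⟨n, hn⟩ := pow_unbounded_of_one_lt S (show (1 : ℝ) < p by exact_mod_cast hp.one_lt)
  obtain ⟨y, hy, hyd, hyn⟩ := claim n
  obtain ⟨k, j, hk, hj0, hj, hyk⟩ := step3 h1 hE hy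
  have hjQ : y * (us P k).2 = j := by exact_mod_cast hj
  obtain ⟨h3, -, -⟩ := h2 P p hp hpa k hk y hyn j hj0 hjQ
  have h4 : (p : ℝ) ^ n ≤ y.den := by exact_mod_cast Nat.le_of_dvd y.den_pos hyd
  have h5 : (y.den : ℝ) ≤ |((us P k).2 : ℝ)| := by exact_mod_cast h3
  have h6 := hS k
  linarith

end Pool.Agent.Q178.GQ
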